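import Pool.Agent.TH771.EA.NE
import Pool.Agent.TH771.CX.ExpClose
import Pool.Agent.H622R2.Exp.FinalE

/-!
# How many strings of a random oracle must be changed to make `E` and `NE` equal?

Let `g` be a function. If for every `ε > 0` there are infinitely many `n` with `g n ≤ n ^ ε`, then
for almost every oracle `O`, relative to every oracle `A` which is obtained from `O` by at most `g`
changes, there is a language in `NE` which is not in `E`, and which is wrong, for infinitely many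
`n`, on some input of length `n`, for every algorithm of `E` with `2 ^ n / 128` bits of advice.
Otherwise every oracle `O` whatsoever can be changed at `g` strings so that `E = NE = ESPACE`, and
if moreover `g n ≤ 2 ^ (n ^ ε)` infinitely often for every `ε > 0`, this can be done without
`NP ⊆ coNP/poly`, for almost every `O`.

`E ≠ NE` alone is the unused theorem `ae_far_E` of the starting files (`Pool.Agent.W900.CH.EFar`).
-/

set_option autoImplicit false

namespace Pool.Agent.Results.MP_8c2300_lc.ChangedStrings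

open Filter MeasureTheory Pool.Agent.NPC
open Pool.Agent.H628R3.RO (randomOracle)
open Pool.Agent.H620R2.Gauge Pool.Agent.H622R2.Exp Pool.Agent.W900.CH Pool.Agent.TH771.CX
open Pool.Agent.TH771.EA

theorem result (g : ℕ → ℝ) :
    ((∀ ε : ℝ, 0 < ε → ∃ᶠ n : ℕ in atTop, g n ≤ (n : ℝ) ^ ε) →
      ∀ᵐ O ∂randomOracle, ∀ A, Close g O A → ∃ L, InNTime Lin A L ∧ ¬ InTime Lin A L ∧
        ∀ M : Alg, ∀ q ∈ Lin, ∀ h : ℕ → List Bool,
          (∀ᶠ n : ℕ in atTop, 128 * (h n).length ≤ 2 ^ n) →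
          ∃ᶠ n : ℕ in atTop, ∃ x : List Bool, x.length = n ∧
            ¬ (M.run A (pairBits x (h n)) (2 ^ q.eval n) [] = some [true] ↔ x ∈ L)) ∧
    ((¬ ∀ ε : ℝ, 0 < ε → ∃ᶠ n : ℕ in atTop, g n ≤ (n : ℝ) ^ ε) →
      (∀ O : Oracle, ∃ A, Close g O A ∧ ∀ L, InSpace Lin A L → InTime Lin A L) ∧
      ((∀ ε : ℝ, 0 < ε → ∃ᶠ n : ℕ in atTop, g n ≤ 2 ^ (n : ℝ) ^ ε) →
        ∀ᵐ O ∂randomOracle,
          (∃ A, Close g O A ∧ ∀ L, InSpace Lin A L → InTime Lin A L) ∧
          ∀ A, Close g O A → ∃ L, IsNP A L ∧ ¬ WithAdvice (IsNP A) Lᶜ)) := by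
  have h : (¬ ∀ ε : ℝ, 0 < ε → ∃ᶠ n : ℕ in atTop, g n ≤ (n : ℝ) ^ ε) →
      ∀ O : Oracle, ∃ A, Close g O A ∧ ∀ L, InSpace Lin A L → InTime Lin A L := by
    intro hg O
    push Not at hg
    obtain ⟨ε, hε, h⟩ := hg
    exact exists_close_E hε h O
  refine ⟨fun hg => ?_, fun hg => ⟨h hg, fun hg2 => ?_⟩⟩
  · filter_upwards [ae_far_E hg, ae_adv hg] with O hO hO2 A hA
    exact ⟨hit2 A, hit2_ntime good_Lin A, hO A hA, hO2 A hA⟩
  · filter_upwards [ae_coNP hg2] with O hO
    exact ⟨h hg O, hO⟩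

end Pool.Agent.Results.MP_8c2300_lc.ChangedStrings
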