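import Pool.Agent.TH678.EX.Gap

/-!
# `E = NE` relative to an oracle, with and without `P = NP`

If `P = NP`, then, by padding, `E = NE` (Book), and this holds relative to every oracle. For every
gauge `f`, the set of the oracles relative to which `E = NE`, and the set of the oracles relative
to which `E = NE` but `P ≠ NP`, are null sets for `f` if and only if for every `ε > 0` there are
infinitely many `N` with `f N ≤ (log N) ^ ε`. The same holds for every set of oracles that contains
all the oracles with `E = ESPACE` and `NP ⊄ coNP/poly`, and all of whose members satisfy `E = NE`.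

`InTime Lin A` is the class `E` relative to `A`, `InNTime Lin A` is `NE`, `InSpace Lin A` is
`ESPACE`.
-/

set_option autoImplicit false

namespace Pool.Agent.Results.MP_8c2300_lc.GaugeThreshold

open Pool.Agent.NPC Pool.Agent.H620R2.Gauge Pool.Agent.H622R2.Exp

theorem result (f : ℕ → ℝ) :
    (∀ O : Set Oracle,
      (∀ A : Oracle, (∀ L, InSpace Lin A L → InTime Lin A L) →
        (∃ L, IsNP A L ∧ ¬ WithAdvice (IsNP A) Lᶜ) → A ∈ O) →
      (∀ A ∈ O, ∀ L, InNTime Lin A L → InTime Lin A L) →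
      (Null f O ↔ ∀ ε : ℝ, 0 < ε → ∃ᶠ N : ℕ in Filter.atTop, f N ≤ (Real.logb 2 N) ^ ε)) ∧
    (Null f {A : Oracle | ∀ L, InTime Lin A L ↔ InNTime Lin A L} ↔
      ∀ ε : ℝ, 0 < ε → ∃ᶠ N : ℕ in Filter.atTop, f N ≤ (Real.logb 2 N) ^ ε) ∧
    (Null f {A : Oracle | (∀ L, InTime Lin A L ↔ InNTime Lin A L) ∧
        ¬ ∀ L, IsP A L ↔ IsNP A L} ↔
      ∀ ε : ℝ, 0 < ε → ∃ᶠ N : ℕ in Filter.atTop, f N ≤ (Real.logb 2 N) ^ ε) :=
  Pool.Agent.TH678.EX.mainE f

end Pool.Agent.Results.MP_8c2300_lc.GaugeThreshold
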