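import Pool.Agent.TH682.EN.Fin

/-!
# `E = NE`, and sets in `NP` which reduce to membership in permutation groups

Polynomial time is Mathlib's `Turing.TM2ComputableInPolyTime`, for functions on bit strings.

Theorem. `NE = E` if and only if every set in `NP` with a many-one reduction to the membership
problem of nonuniform permutation groups is in `P`: for every input length `n` there is an arbitrary
subgroup `H` of a symmetric group, and `x` of length `n` is in the set if and only if a permutation,
computed from `x` and `O(log n)` bits of advice in polynomial time, is in `H`.

For tally sets this is due to Book (1974), for sparse sets to Hartmanis, Immerman and Sewelson
(1985); the sets here can have exponentially many elements of every length.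

Proof. Let `G` be the group generated by the permutations of the members of length `n` (for an advice
`a`). Programs are sequences of instructions `(π, x)` with a member `x` of length `n` and a
permutation `π` which is a product of the entries of the table that has been built so far; the
product of `π` and the permutation of `x` is sifted through the table, and it has to be inserted.
A program has at most `N ^ 2` instructions for permutations of `N` points, and the table of a longest
program is complete: it sifts every element of `G` to the identity. As the numbers `n, a, k` have
`O(log n)` bits, the existence of a program with `k` instructions is a question in `NE = E`. A table
can not be guessed bit by bit, as it is not unique (and `E = NE` is not known to give search). But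
the canonical table is unique: its entry for the key `(i, v)` (the first point `i` which is not fixed,
and its image `v`) is the lexicographically least element of `G` with this key, which is recognised
with any complete table; hence its values are in `NE = E`, given the length of a longest program.
So for the correct advice the canonical table is computed in polynomial time. That all members of
length `n` are sifted to the identity by the table computed for an advice `a` is a question in
`coNE = E`. A string is not a member if and only if for some `a` with this property its permutation
is not sifted to the identity. For the other direction, a set over one letter reduces to the trivial
group.
-/

set_option autoImplicit false

namespace Pool.Agent.Results.MP_8c2300_lc.GroupMemberInP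

open Pool.Agent.NPC Pool.Agent.TH682.HS Pool.Agent.TH682.EN
open Pool.Agent.TH682.EL (InE)

/-- **`E = NE` and permutation groups.** `NE = E` if and only if every set in `NP` which reduces to
membership in nonuniform permutation groups is in `P`. -/
theorem result : (∀ L : Set (List Bool), InNE L ↔ InE L) ↔
    ∀ A : Set (List Bool), InNP A → GroupMember A → InP A :=
  ⟨fun h _ hA hG => inP_of (fun L hL => (h L).1 hL) hA hG,
    fun h _ => ⟨fun hL => inE_of_una (h _ (una_inNP hL) (una_group _)), inNE_of_inE⟩⟩

end Pool.Agent.Results.MP_8c2300_lc.GroupMemberInP
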