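import Pool.Agent.TH93.GL.Main

/-!
# How many guessed bits can be saved in linear-exponential time relative to a random oracle

The number `τ n` is `2 ^ n` here. `InGuess τ g A` is the class of languages accepted in time
`2 ^ O(n)` with `g n` guessed bits relative to `A`: the verifier gets the input, the string of
`2 ^ n` ones and a string of at most `g n` guessed bits, and works in polynomial time. For `g = 0`
this is the class `E` relative to `A`. `InGuessAdv` is the same with polynomial advice, and
`InTimeAdv τ h` is deterministic time with `2 ^ h(n) p(2 ^ n)` rounds and polynomial advice.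
`NiceT τ g` says that `g` is computable in time `2 ^ O(n)` (in unary).

Relative to almost every oracle the following holds for all `g` and `h`, where `g` is computable in
time `2 ^ O(n)`: time `2 ^ O(n)` with `g` guessed bits is contained in time `2 ^ O(n)` with `h`
guessed bits if and only if `g ≤ h + O(n)`; and otherwise some language accepted in time `2 ^ O(n)`
with `g` guessed bits can be decided neither in this time with `h` guessed bits and polynomial
advice, nor deterministically in time `2 ^ (h + O(n))` with polynomial advice.
-/

set_option autoImplicit false

namespace Pool.Agent.Results.MP_8c2300_lc.GuessLaw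

open Pool.Agent.NPC Pool.Agent.H620R2.Gauge Pool.Agent.TH678.ETH Pool.Agent.TH93.GL

theorem result : ∀ᵐ A ∂ranO, ∀ g h : ℕ → ℕ, NiceT (fun n => 2 ^ n) g → List.TFAE [
      ∀ L, InGuess (fun n => 2 ^ n) g A L → InGuess (fun n => 2 ^ n) h A L,
      ∀ L, InGuess (fun n => 2 ^ n) g A L →
        InGuessAdv (fun n => 2 ^ n) h A L ∨ InTimeAdv (fun n => 2 ^ n) h A L,
      ∃ c, ∀ n, g n ≤ h n + c * (n + 1)] :=
  law_exp

end Pool.Agent.Results.MP_8c2300_lc.GuessLaw
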